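import Pool.Agent.KT3.StmtsD

/-!
Squad KT3, row LMD: Lemma D.
-/

set_option autoImplicit false

namespace Pool.Agent.KT3.H66

open Pool.Agent.KT3

theorem lmd : PheStmt → ZppStmt → ZpbStmt → ZplStmt → LmdStmt := by
  intro phe zpp zpb zpl n C Γ d hH w hw δ hδ hx
  obtain ⟨φ, hφ⟩ := phe n C Γ 3 hH.toHI.toHK w hw.pes 0
  obtain ⟨x0, h1, h2, h3⟩ := zpb n C Γ d hH w hw φ hφ δ
    fun x hLf _ ε M hε hM => by
      obtain ⟨T, hT⟩ := zpp n C Γ d hH w hw x hLf δ hδ (hx x hLf) ε M hε hM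
      exact ⟨T, hT⟩
  exact zpl n C Γ d hH w hw φ hφ δ x0 h1 h2 h3

end Pool.Agent.KT3.H66
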